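import Mathlib
import Pool.Agent.H60.HED.REC4
import Pool.Agent.H60.HED.COV4
import Pool.Agent.H87.HED.LSO
import Pool.Agent.H26.HED.CLO
import Pool.Agent.H99.HED.EXP
import Pool.Agent.H99.HED.FIN
import Pool.Agent.H65.HED.GEN
import Pool.Agent.H11.HED.HYP

/-!
# The Poljak-Rodl function is at most `4`
-/

set_option autoImplicit false

namespace Pool.Agent.Results.MP_3579fe_co.PoljakRodlAtMostFour

/-- `k` colours suffice for a proper colouring of the vertices of `G`. -/
def HasColouring {V : Type} (G : SimpleGraph V) (k : ℕ) : Prop :=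
  ∃ f : V → Fin k, ∀ u v : V, G.Adj u v → f u ≠ f v

/-- The chromatic number of `G` is `k`. -/
def IsChromaticNumber {V : Type} (G : SimpleGraph V) (k : ℕ) : Prop :=
  IsLeast {m : ℕ | HasColouring G m} k

/-- The categorical product: `(g, h)` and `(g', h')` are adjacent when `g, g'` are adjacent in `G`
and `h, h'` are adjacent in `H`. -/
def product {V W : Type} (G : SimpleGraph V) (H : SimpleGraph W) : SimpleGraph (V × W) where
  Adj p q := G.Adj p.1 q.1 ∧ H.Adj p.2 q.2
  symm := ⟨fun _ _ h => ⟨h.1.symm, h.2.symm⟩⟩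
  loopless := ⟨fun _ h => h.1.ne rfl⟩

/-- The set of the values `χ(G × H)` over all finite graphs `G` and `H` with `χ(G) = χ(H) = n`. -/
def values (n : ℕ) : Set ℕ :=
  {c | ∃ (a b : ℕ) (G : SimpleGraph (Fin a)) (H : SimpleGraph (Fin b)),
    IsChromaticNumber G n ∧ IsChromaticNumber H n ∧ IsChromaticNumber (product G H) c}

theorem hasColouring_iff {V : Type} (G : SimpleGraph V) (k : ℕ) :
    HasColouring G k ↔ G.Colorable k := by
  constructor
  · rintro ⟨f, hf⟩
    exact ⟨SimpleGraph.Coloring.mk f fun h => hf _ _ h⟩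
  · rintro ⟨C⟩
    exact ⟨C, fun u v h => C.valid h⟩

theorem isChromaticNumber_of_eq {V : Type} (G : SimpleGraph V) (n : ℕ)
    (h : G.chromaticNumber = (n : ℕ∞)) : IsChromaticNumber G n := by
  refine ⟨?_, ?_⟩
  · exact (hasColouring_iff G n).2 (SimpleGraph.chromaticNumber_le_iff_colorable.1 h.le)
  · intro m hm
    have h1 := SimpleGraph.chromaticNumber_le_iff_colorable.2 ((hasColouring_iff G m).1 hm)
    rw [h] at h1
    exact_mod_cast h1

theorem exists_pair (n : ℕ) : ∃ (V W : Type) (_ : Fintype V) (_ : Fintype W)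
    (G : SimpleGraph V) (H : SimpleGraph W), ¬ G.Colorable n ∧ ¬ H.Colorable n ∧
      (SimpleGraph.fromRel
        (fun p q : V × W => G.Adj p.1 q.1 ∧ H.Adj p.2 q.2)).Colorable 4 := by
  obtain ⟨V, fV, G, up, hG, hs⟩ := Pool.Agent.H60.HED.rec4 Pool.Agent.H60.HED.hyp
    Pool.Agent.H60.HED.gen Pool.Agent.H60.HED.clo n (max n 4)
  obtain ⟨s, hF, _⟩ := hs 0 1 one_pos
  obtain ⟨U, hU1, hU2, hU3⟩ := Pool.Agent.H60.HED.cov4 n V G up s hF
  have hG4 : ¬ G.Colorable 4 := fun h => hG (h.mono (le_max_right _ _))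
  have hGn : ¬ G.Colorable n := fun h => hG (h.mono (le_max_left _ _))
  obtain ⟨W, fW, H, hH, hGH⟩ :=
    Pool.Agent.H60.HED.exp_thm Pool.Agent.H60.HED.lso 4 n V G U hU1 hU2 hU3 hG4
  exact ⟨V, W, fV, fW, G, H, hGn, fun h => hH (h.mono (Nat.le_succ n)), hGH⟩

theorem transport {V : Type} {a : ℕ} (e : V ≃ Fin a) (G : SimpleGraph V) (k : ℕ) :
    HasColouring (G.comap e.symm) k ↔ HasColouring G k := by
  constructor
  · rintro ⟨f, hf⟩
    refine ⟨fun v => f (e v), fun u v h => hf _ _ ?_⟩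
    rw [SimpleGraph.comap_adj]
    simpa using h
  · rintro ⟨f, hf⟩
    exact ⟨fun v => f (e.symm v), fun u v h => hf _ _ h⟩

/-- For every positive integer `n` the minimum `f(n)` of the chromatic numbers of the products
`G × H`, over all finite graphs with `χ(G) = χ(H) = n`, exists and is at most `4`. -/
theorem result (n : ℕ) (_hn : 1 ≤ n) : ∃ f : ℕ, IsLeast (values n) f ∧ f ≤ 4 := by
  classical
  obtain ⟨V, W, fV, fW, G, H, hG, hH, hGH⟩ :=
    Pool.Agent.H60.HED.fin 4 (by norm_num) exists_pair n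
  obtain ⟨e⟩ : Nonempty (V ≃ Fin (Fintype.card V)) := ⟨Fintype.equivFin V⟩
  obtain ⟨e'⟩ : Nonempty (W ≃ Fin (Fintype.card W)) := ⟨Fintype.equivFin W⟩
  have hG' : IsChromaticNumber (G.comap e.symm) n := by
    have h1 := isChromaticNumber_of_eq G n hG
    refine ⟨(transport e G n).2 h1.1, fun m hm => h1.2 ((transport e G m).1 hm)⟩
  have hH' : IsChromaticNumber (H.comap e'.symm) n := by
    have h1 := isChromaticNumber_of_eq H n hH
    refine ⟨(transport e' H n).2 h1.1, fun m hm => h1.2 ((transport e' H m).1 hm)⟩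
  have hP : HasColouring (product (G.comap e.symm) (H.comap e'.symm)) 4 := by
    have h4 : (SimpleGraph.fromRel
        (fun p q : V × W => G.Adj p.1 q.1 ∧ H.Adj p.2 q.2)).Colorable 4 :=
      SimpleGraph.chromaticNumber_le_iff_colorable.1 hGH
    obtain ⟨f, hf⟩ := (hasColouring_iff _ 4).2 h4
    refine ⟨fun p => f (e.symm p.1, e'.symm p.2), fun u v h => hf _ _ ?_⟩
    rw [SimpleGraph.fromRel_adj]
    refine ⟨?_, Or.inl h⟩
    intro heq
    have h1 : e.symm u.1 = e.symm v.1 := congrArg Prod.fst heq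
    have h2 : G.Adj (e.symm u.1) (e.symm v.1) := h.1
    exact h2.ne h1
  have hex : ∃ c, HasColouring (product (G.comap e.symm) (H.comap e'.symm)) c := ⟨4, hP⟩
  have hval : Nat.find hex ∈ values n :=
    ⟨_, _, _, _, hG', hH', Nat.find_spec hex, fun m hm => Nat.find_min' hex hm⟩
  have hex2 : ∃ c, c ∈ values n := ⟨_, hval⟩
  refine ⟨Nat.find hex2, ⟨Nat.find_spec hex2, fun m hm => Nat.find_min' hex2 hm⟩, ?_⟩
  exact (Nat.find_min' hex2 hval).trans (Nat.find_min' hex hP)

end Pool.Agent.Results.MP_3579fe_co.PoljakRodlAtMostFour
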